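import Pool.Agent.L0h23.AA.SymDefs
import Pool.Agent.L0h23.AA.Level

/-!
# Bounded functions with Fourier weight on a family of bounded codegree (MP_cf5f8b_an)

It is known that the Aaronson-Ambainis conjecture holds with `e^{deg f}` instead of `deg f`.  Here the factor which
is exponential in the degree is replaced by `9^k t`, where `k` and `t` are such that the Fourier weight considered
lies on a family of sets in which every set of `k` coordinates is contained in at most `t` members.  So the
conjecture holds for bounded polynomials in which every set of `k = O(log d)` variables occurs in at most `poly(d)`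
monomials of degree at least `k` (the monomials of degree less than `k` are arbitrary), and, more generally, if a
noticeable part of the variance lies on such monomials, for instance on levels `O(log d)`.

The proof: functions with spectrum in such a family satisfy `E h^4 ≤ t 9^k (E h^2)^2` (`four_le`, an induction as in
Bonami's lemma, which stops after `k` links); by Markov's inequality `∑_e |D_e f(x)| ≤ 2 d^2` at every point; now
pair `D_e f` with its part in the family.
-/

set_option autoImplicit false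

open Finset

namespace Pool.Agent.Results.MP_cf5f8b_an.BoundedCodegree

open Pool.Agent.L0h23.AA.Sym

/-- The Fourier coefficient `E f(x) ∏_{e ∈ S} x_e`. -/
noncomputable def coefficient {I : Type} [Fintype I] [DecidableEq I] (f : (I → Bool) → ℝ)
    (S : Finset I) : ℝ :=
  ((2:ℝ) ^ Fintype.card I)⁻¹ * ∑ x : I → Bool, f x * ∏ e ∈ S, (-1 : ℝ) ^ (x e).toNat

/-- **Theorem.**  Let `f : {-1,1}^I → [-1,1]` have degree at most `d`, and let `𝓢` be a family of nonempty
sets of coordinates such that every set of `k` coordinates is contained in at most `t` members of `𝓢`.  Then some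
coordinate has influence at least `(∑_{S ∈ 𝓢} f^(S)^2)^2 / (4 · 9^k · t · d^4)`. -/
theorem result {I : Type} [Fintype I] [DecidableEq I] [Nonempty I]
    (f : (I → Bool) → ℝ) (hbound : ∀ x, |f x| ≤ 1) (d : ℕ) (hd : 1 ≤ d) (hdeg : DegreeLE f d)
    (k t : ℕ) (ht : 1 ≤ t) (𝓢 : Finset (Finset I)) (hempty : ∅ ∉ 𝓢)
    (hcodegree : ∀ K : Finset I, K.card = k → (𝓢.filter fun S => K ⊆ S).card ≤ t) :
    ∃ e : I, (∑ S ∈ 𝓢, coefficient f S ^ 2) ^ 2 / (4 * 9 ^ k * t * (d:ℝ) ^ 4) ≤ influence e f := by
  have hinf : ∀ e : I, influence e f = mean fun x => Dv e f x ^ 2 := fun _ => rfl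
  have hcf : ∀ S : Finset I, coefficient f S = coef f S := fun _ => rfl
  have hcoef : ∀ S : Finset I, d < S.card → coef f S = 0 := by
    intro S hS
    have h := hdeg S hS
    show ((2:ℝ) ^ Fintype.card I)⁻¹ * ∑ x : I → Bool, f x * ch S x = 0
    have e : ∑ x : I → Bool, f x * ch S x = 0 := h
    rw [e, mul_zero]
  simp only [hinf, hcf]
  obtain ⟨e, _, he⟩ := exists_max_image (univ : Finset I) (fun e => mean fun x => Dv e f x ^ 2)
    univ_nonempty
  refine ⟨e, ?_⟩
  set z := mean fun x => Dv e f x ^ 2 with hz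
  have hz0 : 0 ≤ z := mean_nonneg fun _ => sq_nonneg _
  have h := weight_le hbound hcoef ht 𝓢
    (fun S hS => nonempty_iff_ne_empty.2 fun h => hempty (h ▸ hS)) hcodegree (√z)
    (Real.sqrt_nonneg z) (fun i => by
      rw [Real.sq_sqrt hz0]
      exact he i (mem_univ i))
  have hW0 : 0 ≤ ∑ S ∈ 𝓢, coef f S ^ 2 := sum_nonneg fun _ _ => sq_nonneg _
  have h2 := pow_le_pow_left₀ hW0 h 2
  have h3 : (2 * (d:ℝ) ^ 2 * (√(t:ℝ) * 3 ^ k) * √z) ^ 2 = (4 * 9 ^ k * t * (d:ℝ) ^ 4) * z := by
    have e1 : √z ^ 2 = z := Real.sq_sqrt hz0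
    have e2 : √(t:ℝ) ^ 2 = t := Real.sq_sqrt (Nat.cast_nonneg t)
    have e3 : ((3:ℝ) ^ k) ^ 2 = 9 ^ k := by
      rw [← pow_mul, mul_comm k 2, pow_mul]
      norm_num
    calc (2 * (d:ℝ) ^ 2 * (√(t:ℝ) * 3 ^ k) * √z) ^ 2
        = 4 * (d:ℝ) ^ 4 * √(t:ℝ) ^ 2 * ((3:ℝ) ^ k) ^ 2 * √z ^ 2 := by ring
      _ = _ := by rw [e1, e2, e3]; ring
  rw [h3] at h2
  have hd0 : (0:ℝ) < d := by exact_mod_cast hd
  have ht0 : (0:ℝ) < t := by exact_mod_cast ht
  rw [div_le_iff₀ (by positivity)]
  linarith

end Pool.Agent.Results.MP_cf5f8b_an.BoundedCodegree
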