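import Pool.Agent.L0h23.AA.QMain

/-!
# Quantum query algorithms with boundedly many rounds have influential variables (MP_cf5f8b_an)

The Aaronson-Ambainis conjecture is about the polynomials which are bounded on the cube; its source are the
acceptance probabilities of quantum query algorithms with `T` queries, which are polynomials of degree at most
`2 T`.  Here it is proved, polynomially for every fixed number `r` of rounds, for the acceptance probabilities of
all quantum algorithms which make their queries in `r` adaptive rounds of `p` parallel queries each.

The proof.  (1) If a bit `j` is flipped, the state changes by `2 ∑_t V ... V Q_j u'_t` with propagators `V` of the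
unflipped run, so that the sum over `j` of the squares of the changes of a family of probabilities is at most
`C r^4 p` times the greatest query weight (`pert`).  (2) Hence, by the Poincaré inequality, the vector of all query
weights of a round is concentrated if the query weights of the earlier rounds are small; this gives by induction
on the rounds that all query weights are small as soon as their means are small.  (3) The decision tree which
asks for a bit while its mean query weight is at least `δ` has expected depth at most `r p / δ`, because the
expected total query weight drops by `δ` with every question; at its leaves the variance is at most half of the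
variance.  (4) The inequality of O'Donnell, Saks, Schramm and Servedio for this tree gives the influential bit.
-/

set_option autoImplicit false

open Finset

namespace Pool.Agent.Results.MP_cf5f8b_an.BoundedRoundAlgorithms

open Pool.Agent.L0h23.AA

/-- **Quantum query algorithms with `r` rounds of `p` parallel queries have influential variables.**
Let `f(x)` be the probability that such an algorithm accepts the input `x ∈ {-1,1}^n`.  Then some coordinate
has influence at least `(Var f / (6480 r^8 p^3)) ^ (2^r + 2)`. -/
theorem result (n r p : ℕ) (hn : 1 ≤ n) (hr : 1 ≤ r) (hp : 1 ≤ p) (A : QueryAlgorithm n p) :
    ∃ j : Fin n, (variance (A.acceptance r) / (6480 * r ^ 8 * p ^ 3)) ^ (2 ^ r + 2) ≤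
      influence j (A.acceptance r) := by
  have hinf : ∀ j : Fin n, influence j (A.acceptance r) = E fun x => D j (A.acceptance r) x ^ 2 :=
    fun j => rfl
  have hvar : variance (A.acceptance r) =
      (E fun x => A.acceptance r x ^ 2) - (E fun x => A.acceptance r x) ^ 2 := rfl
  have h0 : 0 ≤ variance (A.acceptance r) := by
    rw [hvar]
    have := sq_E_le (A.acceptance r)
    linarith
  rcases h0.eq_or_lt with h | h
  · refine ⟨⟨0, hn⟩, ?_⟩
    rw [← h, zero_div, zero_pow (by positivity), hinf]
    exact E_nonneg fun _ => sq_nonneg _
  · refine A.main r hr hp _ h ?_ le_rfl
    rw [hvar]
    have h1 : (E fun x => A.acceptance r x ^ 2) ≤ 1 := by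
      have := E_mono (f := fun x => A.acceptance r x ^ 2) (g := fun _ : X n => (1:ℝ)) (fun x => by
        have h2 : 0 ≤ A.acceptance r x := wt_nonneg A.accept (A.state x r)
        have h3 : A.acceptance r x ≤ 1 :=
          (wt_le A.accept (A.state x r)).trans (pow_le_one₀ (norm_nonneg _) (A.norm_state x r))
        exact pow_le_one₀ h2 h3)
      rwa [E_const] at this
    have h2 := sq_nonneg (E fun x => A.acceptance r x)
    linarith

end Pool.Agent.Results.MP_cf5f8b_an.BoundedRoundAlgorithms
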