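import Pool.Agent.L0h23.AA.SymMain
import Pool.Agent.L0h23.AA.SymGraphs

/-!
# Isomorphism-invariant functions have influential variables (MP_cf5f8b_an)

The Aaronson-Ambainis conjecture is known for symmetric functions.  Here it is proved for the functions on
`{-1,1}^I` which are invariant under a product `∏_i Sym(V_i)` of symmetric groups acting on the set `I` of
coordinates in such a way that every coordinate involves at most `κ` points of the disjoint union of the sets
`V_i`, and that there are at most `l` orbits: for instance isomorphism-invariant functions of graphs, directed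
graphs, bipartite graphs, `k`-uniform hypergraphs, or many-sorted relational structures with `l` relations of
arity at most `κ`, and functions which are symmetric in each of `l` blocks of variables.

The proof.  For a random map `σ` of range `r` in every big sort, the mean of `f(x ∘ σ)` is a polynomial in `1 / r`
of degree at most `κ d`, bounded by `1` at all points `1 / r` and equal to `f(x)` at `0` (an argument of Zhandry in
quantum query complexity); by Markov's inequality `f(x)` is close to the mean of `f(x ∘ σ)`, uniformly in `x`, and
since `f(x ∘ σ)` depends only on the coordinates involving points in the range of `σ`, the Fourier weight of `f` on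
the sets which involve a point of a big sort is small.  So half of the variance of `f` comes from the few
coordinates which involve only points of small sorts.
-/

set_option autoImplicit false

open Finset

namespace Pool.Agent.Results.MP_cf5f8b_an.InvariantFunctions

open Pool.Agent.L0h23.AA.Sym

/-- **Invariant functions have influential variables.**  Let `∏_i Sym(V_i)` act on the finite set `I`
with at most `l` orbits and supports of at most `κ` points.  Let `f : {-1,1}^I → [-1,1]` be invariant and of
degree at most `d`.  Then some coordinate has influence at least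
`(Var f / (2 l)) ((Var f)^2 / (8256 κ^4 d^4))^κ`. -/
theorem result {ι : Type} [Fintype ι] [DecidableEq ι] {V : ι → Type} [∀ i, Fintype (V i)]
    [∀ i, DecidableEq (V i)] {I : Type} [Fintype I] [DecidableEq I] [Nonempty I]
    [MulAction (∀ i, Equiv.Perm (V i)) I]
    (κ : ℕ) (supp : I → Finset (Σ i, V i)) (hsupp : Supported κ supp)
    (l : ℕ) (rep : Fin l → I)
    (hrep : ∀ e : I, ∃ (k : Fin l) (π : ∀ i, Equiv.Perm (V i)), e = π • rep k)
    (f : (I → Bool) → ℝ) (hbound : ∀ x, |f x| ≤ 1)
    (hinv : ∀ (π : ∀ i, Equiv.Perm (V i)) (x : I → Bool), f (fun e => x (π • e)) = f x)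
    (d : ℕ) (hd : 1 ≤ d) (hdeg : DegreeLE f d) :
    ∃ e : I, variance f / (2 * l) * (variance f ^ 2 / (8256 * (κ:ℝ) ^ 4 * (d:ℝ) ^ 4)) ^ κ ≤
      influence e f := by
  have hvar : variance f = (mean fun x => f x ^ 2) - (mean f) ^ 2 := rfl
  have hinf : ∀ e : I, influence e f = mean fun x => Dv e f x ^ 2 := fun _ => rfl
  have hcoef : ∀ S : Finset I, d < S.card → coef f S = 0 := by
    intro S hS
    have h := hdeg S hS
    show ((2:ℝ) ^ Fintype.card I)⁻¹ * ∑ x : I → Bool, f x * ch S x = 0
    have e : ∑ x : I → Bool, f x * ch S x = 0 := h
    rw [e, mul_zero]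
  have h0 : 0 ≤ variance f := by
    rw [hvar, var_eq]
    exact sum_nonneg fun _ _ => sq_nonneg _
  rcases h0.eq_or_lt with h | h
  · refine ⟨Classical.arbitrary I, ?_⟩
    rw [← h, zero_div, zero_mul, hinf]
    exact mean_nonneg fun _ => sq_nonneg _
  · exact mainSym hsupp rep hrep f hbound hinv hd hcoef (variance f) h hvar

/-- The special case of isomorphism-invariant functions of `k`-uniform hypergraphs on the vertex set `W`. -/
theorem hypergraphs {W : Type} [Fintype W] [DecidableEq W] (k : ℕ)
    [hne : Nonempty {s : Finset W // s.card = k}]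
    (f : ({s : Finset W // s.card = k} → Bool) → ℝ) (hbound : ∀ x, |f x| ≤ 1)
    (hinv : ∀ (π : Equiv.Perm W) (x : {s : Finset W // s.card = k} → Bool),
      f (fun s => x ⟨s.1.map π.toEmbedding, by rw [card_map]; exact s.2⟩) = f x)
    (d : ℕ) (hd : 1 ≤ d) (hdeg : DegreeLE f d) :
    ∃ e, variance f / 2 * (variance f ^ 2 / (8256 * (k:ℝ) ^ 4 * (d:ℝ) ^ 4)) ^ k ≤
      influence e f := by
  let _ := hyperAction W k
  obtain ⟨s₀⟩ := hne
  have : Nonempty {s : Finset W // s.card = k} := ⟨s₀⟩
  have h := result (V := fun _ : Unit => W) k hyperSupp hyper_supported 1 (fun _ => s₀)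
    (fun e => by
      obtain ⟨π, hπ⟩ := hyper_transitive s₀ e
      exact ⟨0, π, hπ⟩) f hbound (fun π x => hinv (π ()) x) d hd hdeg
  obtain ⟨e, he⟩ := h
  exact ⟨e, by simpa using he⟩

end Pool.Agent.Results.MP_cf5f8b_an.InvariantFunctions
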