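import Pool.Agent.L0h23.AA.SymDefs
import Pool.Agent.L0h23.AA.RestrMain

/-!
# Random restrictions of bounded functions (MP_cf5f8b_an)

Bhattacharya (2024) proved that the Aaronson-Ambainis conjecture holds for random restrictions, in the following sense:
if every coordinate survives with probability `ρ = c log d / d` and the others are fixed at random, then the
restricted function has an influential coordinate with probability at least `Var f · log d / (C d)`.

Here the exceptional restrictions are shown to carry only an `ε`-fraction of the expected variance, for every `ε`
(polynomially small in `d` if one wishes), and the consequence on which the conjecture was meant to bear is derived: for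
almost all restrictions the restricted function is computed, up to a small mean square error, by a decision tree of
depth polynomial in `d`.  So if a `q`-query quantum algorithm is given a random part of its input, which misses
each input bit with probability `O(log q / q)`, for free, then a classical algorithm with `poly(q)` further
queries simulates it on almost all inputs.

The proof: the expected Fourier weight of a random restriction above level `k` is at most `2^{-k} e^{3 ρ d}`
times its expected variance (`rm_Tl`); functions with small tails and small influences have small variance
(`Vr_le`, from Markov's inequality and the hypercontractive inequality for sets of size at most `k`); the tail of a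
function does not increase on average if coordinates are fixed adaptively (`Tl_fixc`, `exists_tree`).
-/

set_option autoImplicit false

open Finset

namespace Pool.Agent.Results.MP_cf5f8b_an.RandomRestrictions

open Pool.Agent.L0h23.AA.Sym

/-- **Theorem.**  Let `f : {-1,1}^I → [-1,1]` have degree at most `d ≥ 1`, let `0 < ρ ≤ 1/2` be the survival
probability of a random restriction `f_z`, `z = (J, y)`, and `0 < ε ≤ 1`.

(1) The restrictions `f_z` all of whose influences are less than
`ε^4 Var(f_z)^2 / (4096 e^{12 ρ d} d^4)` carry at most the fraction `ε` of the expected variance.

(2) If `D ≥ 139968 d^5 e^{12 ρ d} / ε^7` then there are decision trees `T J a` of depth at most `D`, where `T J a`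
depends only on `J` and on the coordinates of `a` outside `J`, such that the mean of `(f a - (T J a).output a)^2`, over
the random set `J` of surviving coordinates and a uniform point `a` of the cube, is at most `ε`. -/
theorem result {I : Type} [Fintype I] [DecidableEq I] [Nonempty I]
    (f : (I → Bool) → ℝ) (hbound : ∀ x, |f x| ≤ 1) (d : ℕ) (hd : 1 ≤ d) (hdeg : DegreeLE f d)
    (ρ : ℝ) (hρ : 0 < ρ) (hρ' : ρ ≤ 1 / 2) (ε : ℝ) (hε : 0 < ε) (hε' : ε ≤ 1) :
    restrictionMean ρ (fun J y =>
        if ∀ e, influence e (restriction f J y) <
            ε ^ 4 / (4096 * Real.exp (12 * ρ * d) * (d:ℝ) ^ 4) * variance (restriction f J y) ^ 2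
        then variance (restriction f J y) else 0) ≤
      ε * restrictionMean ρ (fun J y => variance (restriction f J y)) ∧
    ∀ D : ℕ, 139968 * (d:ℝ) ^ 5 * Real.exp (12 * ρ * d) / ε ^ 7 ≤ D →
      ∃ T : Finset I → (I → Bool) → DecisionTree I,
        (∀ J a b, (∀ e, e ∉ J → a e = b e) → T J a = T J b) ∧ (∀ J a, (T J a).depth ≤ D) ∧
        restrictionMean ρ (fun J a => (f a - (T J a).output a) ^ 2) ≤ ε := by
  have hrm : ∀ F : Finset I → (I → Bool) → ℝ, restrictionMean ρ F = rm ρ F := fun _ => rfl
  have hinf : ∀ (g : (I → Bool) → ℝ) (e : I), influence e g = mean fun x => Dv e g x ^ 2 :=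
    fun _ _ => rfl
  have hrst : ∀ (J : Finset I) (y : I → Bool), restriction f J y = rst f J y := fun _ _ => rfl
  have hvar : ∀ g : (I → Bool) → ℝ, variance g = Vr g := fun g => var_eq g
  have hcoef : ∀ S : Finset I, d < S.card → coef f S = 0 := by
    intro S hS
    have h := hdeg S hS
    show ((2:ℝ) ^ Fintype.card I)⁻¹ * ∑ x : I → Bool, f x * ch S x = 0
    have e : ∑ x : I → Bool, f x * ch S x = 0 := h
    rw [e, mul_zero]
  constructor
  · simp only [hrm, hinf, hrst, hvar]
    refine almost_all hbound hd hcoef hρ hρ' hε hε' _ ?_ ?_
    · intro J y hex
      rw [if_neg]
      intro hall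
      obtain ⟨e, he⟩ := hex
      exact absurd (hall e) (not_lt.2 he)
    · intro J y
      split_ifs
      · exact le_rfl
      · exact Vr_nonneg _
  · intro D hD
    simp only [hrm]
    exact trees hbound hd hcoef hρ hρ' hε hε' D hD

end Pool.Agent.Results.MP_cf5f8b_an.RandomRestrictions
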